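import Pool.Agent.T9h98.NK.SpecS
import Pool.Agent.T9h47.NK.Sum0

/-! Project NK, STEP: the centre of a cross-polytope figure (helper75). -/

set_option autoImplicit false

open Set
open scoped RealInnerProductSpace

namespace Pool.Agent.T9h75.NK

open Pool.Agent.T9h98.DC Pool.Agent.T9h44.NK Pool.Agent.T9h98.NK

theorem third {D : ℕ} (hD : 3 ≤ D) (i j : Fin D) : ∃ k, k ≠ i ∧ k ≠ j := by
  by_contra hcon
  push Not at hcon
  have h1 : (Finset.univ : Finset (Fin D)) ⊆ {i, j} := by
    intro k _
    by_cases hk : k = i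
    · simp [hk]
    · simp [hcon k hk]
  have h2 := Finset.card_le_card h1
  have h3 : ({i, j} : Finset (Fin D)).card ≤ 2 := Finset.card_le_two
  rw [Finset.card_univ, Fintype.card_fin] at h2
  omega

/-- (CENX) -/
theorem cenX (hF : S_FACES) (hVF : S_VF) (hTR : S_TR) (hG2 : S_G2) : S_CENX := by
  classical
  rintro D P H v n ι hD hP hH hv ⟨hSup, hn0, hOrt, hfix, -, hGood⟩ c r b hr hQ
  obtain ⟨hQP, -⟩ := hVF D P v n ι hP hv hSup hn0 hOrt
  obtain ⟨hpres, -⟩ := hTR D P H v n ι hP hH hv hSup hn0 hOrt hfix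
  obtain ⟨hvx, hadj⟩ := hG2 D _ c r b hr hQ
  have hbb : ∀ i j, ⟪b i, b j⟫ = if i = j then (1 : ℝ) else 0 := fun i j =>
    orthonormal_iff_ite.1 b.orthonormal i j
  have h1 : ∀ i k, i ≠ k → ∀ z, (z = c + r • b i ∨ z = c - r • b i) → ⟪z - c, b k⟫ = 0 := by
    rintro i k hik z (rfl | rfl)
    · rw [add_sub_cancel_left, real_inner_smul_left, hbb, if_neg hik, mul_zero]
    · rw [sub_sub_cancel_left, inner_neg_left, real_inner_smul_left, hbb, if_neg hik, mul_zero,
        neg_zero]
  have h2 : ∀ k, ⟪(c + r • b k) - c, b k⟫ = r := by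
    intro k
    rw [add_sub_cancel_left, real_inner_smul_left, hbb, if_pos rfl, mul_one]
  have hT : ∀ x x', Vx (fig v n ι P) x → Vx (fig v n ι P) x' → ∃ k ∈ figH H v ι, k x = x' := by
    intro x x' hx hx'
    obtain ⟨i, hi⟩ := (hvx x).1 hx
    obtain ⟨i', hi'⟩ := (hvx x').1 hx'
    obtain ⟨k, hk, hk'⟩ := third hD i i'
    have hy : Vx (fig v n ι P) (c + r • b k) := (hvx _).2 ⟨k, Or.inl rfl⟩
    have hA : ∀ i z, k ≠ i → (z = c + r • b i ∨ z = c - r • b i) → Vx (fig v n ι P) z →
        Adj (fig v n ι P) (c + r • b k) z := by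
      intro i z hki hz hzv
      refine (hadj _ _ hy hzv).2 ⟨?_, Or.inl ?_⟩
      · intro he
        have h3 := h1 i k (Ne.symm hki) z hz
        rw [← he, h2] at h3
        exact hr.ne' h3
      · intro he
        have h3 := h1 i k (Ne.symm hki) z hz
        rw [he, inner_neg_left, h2] at h3
        linarith
    exact hGood _ _ _ (hA i x hk hi hx) (hA i' x' hk' hi' hx')
  refine ⟨?_, hT⟩
  let f : Fin D × Bool → E D := fun p => c + (bif p.2 then r else -r) • b p.1
  have hf : Function.Injective f := by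
    rintro ⟨i, s⟩ ⟨j, t⟩ hij
    have h3 : ⟪f (i, s) - c, b i⟫ = ⟪f (j, t) - c, b i⟫ := by rw [hij]
    simp only [f, add_sub_cancel_left, real_inner_smul_left, hbb, if_true, mul_one] at h3
    by_cases hji : j = i
    · subst hji
      simp only [if_true, mul_one] at h3
      cases s <;> cases t <;> simp at h3 ⊢ <;> linarith
    · rw [if_neg hji, mul_zero] at h3
      cases s <;> simp at h3 <;> linarith
  have hS := Pool.Agent.T9h47.NK.sum0 hF D (fig v n ι P) (figH H v ι) (Finset.univ.image f) hQP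
    hpres (fun x x' hx hx' => hT x x' hx hx') (fun x => by
      rw [hvx, Finset.mem_image]
      constructor
      · rintro ⟨⟨i, s⟩, -, rfl⟩
        refine ⟨i, ?_⟩
        cases s
        · right
          simp [f, sub_eq_add_neg]
        · left
          simp [f]
      · rintro ⟨i, rfl | rfl⟩
        · exact ⟨(i, true), Finset.mem_univ _, by simp [f]⟩
        · exact ⟨(i, false), Finset.mem_univ _, by simp [f, sub_eq_add_neg]⟩)
  rw [Finset.sum_image (fun _ _ _ _ h => hf h), Fintype.sum_prod_type] at hS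
  have h4 : ∀ i : Fin D, ∑ s : Bool, f (i, s) = (2 : ℝ) • c := by
    intro i
    rw [Fintype.sum_bool]
    simp only [f, cond_true, cond_false]
    module
  simp only [h4, Finset.sum_const, Finset.card_univ, Fintype.card_fin] at hS
  rw [← Nat.cast_smul_eq_nsmul ℝ, smul_smul] at hS
  rcases smul_eq_zero.1 hS with h5 | h5
  · have : (0 : ℝ) < D := by
      have : 0 < D := by omega
      exact_mod_cast this
    nlinarith
  · exact h5

end Pool.Agent.T9h75.NK
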