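import Pool.Agent.T9h44.NK.SpecC
import Pool.Agent.T9h73.NK.FF

/-! Project NK: the regular simplex is flag-transitive (helper75). -/

set_option autoImplicit false

open Set
open scoped RealInnerProductSpace

namespace Pool.Agent.T9h75.NK

open Pool.Agent.T9h98.DC Pool.Agent.T9h44.NK

/-- equidistant points are affinely independent -/
theorem aff {d m : ℕ} (v : Fin m → E d) (s : ℝ) (hs : 0 < s)
    (h : ∀ i j, i ≠ j → dist (v i) (v j) = s) : AffineIndependent ℝ v := by
  rw [affineIndependent_iff_of_fintype]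
  intro w hw h0
  have h1 := EuclideanGeometry.inner_weightedVSub (P := E d) v hw v hw
  rw [h0, inner_zero_left] at h1
  have h2 : ∀ i j, w i * w j * (dist (v i) (v j) * dist (v i) (v j)) =
      w i * w j * s ^ 2 - if i = j then w i * w i * s ^ 2 else 0 := by
    intro i j
    by_cases hij : i = j
    · subst hij
      simp
    · rw [h i j hij, if_neg hij]
      ring
  simp only [h2, Finset.sum_sub_distrib, Finset.sum_ite_eq, Finset.mem_univ, if_true] at h1
  have h3 : ∑ i, ∑ j, w i * w j * s ^ 2 = 0 := by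
    have : ∑ i, ∑ j, w i * w j * s ^ 2 = (∑ i, w i) * (∑ j, w j) * s ^ 2 := by
      rw [Finset.sum_mul_sum, Finset.sum_mul]
      refine Finset.sum_congr rfl fun i _ => ?_
      rw [Finset.sum_mul]
    rw [this, hw]
    simp
  rw [h3] at h1
  have h4 : ∑ i, w i * w i * s ^ 2 = 0 := by linarith
  intro i
  have h5 := (Finset.sum_eq_zero_iff_of_nonneg
    (fun i _ => mul_nonneg (mul_self_nonneg (w i)) (sq_nonneg s))).1 h4 i (Finset.mem_univ i)
  have h6 : w i * w i = 0 := by
    rcases mul_eq_zero.1 h5 with h | h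
    · exact h
    · exact absurd h (by positivity)
  exact mul_self_eq_zero.1 h6

/-- the isometry which swaps two points and fixes all points equidistant to them -/
theorem swp {d : ℕ} (a b : E d) : ∃ g : E d ≃ᵢ E d, g a = b ∧ g b = a ∧
    ∀ x, dist x a = dist x b → g x = x := by
  set c : E d := midpoint ℝ a b with hc
  let R : E d ≃ₗᵢ[ℝ] E d := (ℝ ∙ (a - b))ᗮ.reflection
  have hR : ∀ x : E d, ⟪x, a - b⟫ = 0 → R x = x := by
    intro x hx
    refine (Submodule.reflection_eq_self_iff (K := (ℝ ∙ (a - b))ᗮ) x).2 ?_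
    rw [Submodule.mem_orthogonal_singleton_iff_inner_left]
    exact hx
  have hR2 : R (a - b) = -(a - b) := Submodule.reflection_orthogonalComplement_singleton_eq_neg _
  have hac : a - c = (1 / 2 : ℝ) • (a - b) := by
    rw [hc, midpoint_eq_smul_add, invOf_eq_inv]
    module
  have hbc : b - c = -((1 / 2 : ℝ) • (a - b)) := by
    rw [hc, midpoint_eq_smul_add, invOf_eq_inv]
    module
  refine ⟨((IsometryEquiv.subRight c).trans R.toIsometryEquiv).trans (IsometryEquiv.addRight c),
    ?_, ?_, ?_⟩
  · change R (a - c) + c = b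
    rw [hac, map_smul, hR2, smul_neg, ← hbc]
    abel
  · change R (b - c) + c = a
    rw [hbc, map_neg, map_smul, hR2, smul_neg, neg_neg, ← hac]
    abel
  · intro x hx
    change R (x - c) + c = x
    rw [hR, sub_add_cancel]
    rw [dist_eq_norm, dist_eq_norm] at hx
    have h1 : x - a = (x - c) - (1 / 2 : ℝ) • (a - b) := by rw [← hac]; abel
    have h2 : x - b = (x - c) + (1 / 2 : ℝ) • (a - b) := by
      rw [← sub_neg_eq_add, ← hbc]; abel
    have h3 : ‖x - a‖ ^ 2 = ‖x - b‖ ^ 2 := by rw [hx]
    rw [h1, h2, norm_sub_sq_real, norm_add_sq_real, inner_smul_right] at h3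
    linarith

/-- a permutation of equidistant points extends to an isometry -/
theorem perm {d m : ℕ} (v : Fin m → E d) (s : ℝ)
    (h : ∀ i j, i ≠ j → dist (v i) (v j) = s) (τ : Equiv.Perm (Fin m)) :
    ∃ g : E d ≃ᵢ E d, ∀ j, g (v j) = v (τ j) := by
  induction τ using Equiv.Perm.swap_induction_on with
  | one => exact ⟨IsometryEquiv.refl _, fun j => rfl⟩
  | swap_mul f x y hxy ih =>
    obtain ⟨g, hg⟩ := ih
    obtain ⟨k, k1, k2, k3⟩ := swp (v x) (v y)
    refine ⟨g.trans k, fun j => ?_⟩
    change k (g (v j)) = v (Equiv.swap x y (f j))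
    rw [hg]
    by_cases h1 : f j = x
    · rw [h1, Equiv.swap_apply_left, k1]
    by_cases h2 : f j = y
    · rw [h2, Equiv.swap_apply_right, k2]
    rw [Equiv.swap_apply_of_ne_of_ne h1 h2, k3 _ (by rw [h _ _ h1, h _ _ h2])]

theorem img_hull {d : ℕ} (g : E d ≃ᵢ E d) (s : Set (E d)) :
    g '' convexHull ℝ s = convexHull ℝ (g '' s) := by
  have h := (g.toRealAffineIsometryEquiv.toAffineEquiv.toAffineMap).image_convexHull s
  have hg : ⇑(g.toRealAffineIsometryEquiv.toAffineEquiv.toAffineMap) = g := by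
    ext x
    rfl
  rw [hg] at h
  exact h

/-- the chain of index sets of a flag -/
theorem idx {d : ℕ} {P : Set (E d)} (v : Fin (d + 1) → E d) (hv : AffineIndependent ℝ v)
    (hP : P = convexHull ℝ (range v)) (Φ : Flag P) :
    ∃ I : Fin d → Finset (Fin (d + 1)), Monotone I ∧ (∀ i, (I i).card = i + 1) ∧
      ∀ i, Φ.face i = convexHull ℝ (v '' (I i : Set (Fin (d + 1)))) := by
  classical
  have hF : ∀ i, Φ.face i =
      convexHull ℝ (v '' ((Finset.univ.filter fun j => v j ∈ Φ.face i : Finset _) : Set _)) := by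
    intro i
    have h1 := Pool.Agent.T9h73.NK.face_hull (Set.finite_range v) hP (Φ.isFace i)
    have h2 : v '' ((Finset.univ.filter fun j => v j ∈ Φ.face i : Finset _) : Set _) =
        range v ∩ Φ.face i := by
      ext x
      simp only [Finset.coe_filter, Finset.mem_univ, true_and, mem_image, mem_ofPred_eq, mem_inter_iff,
        mem_range]
      constructor
      · rintro ⟨j, hj, rfl⟩
        exact ⟨⟨j, rfl⟩, hj⟩
      · rintro ⟨⟨j, rfl⟩, hj⟩
        exact ⟨j, hj, rfl⟩
    rw [h2]
    exact h1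
  refine ⟨fun i => Finset.univ.filter fun j => v j ∈ Φ.face i, ?_, ?_, hF⟩
  · intro i j hij x hx
    simp only [Finset.mem_filter, Finset.mem_univ, true_and] at hx ⊢
    exact Φ.mono hij hx
  · intro i
    set J : Finset (Fin (d + 1)) := Finset.univ.filter fun j => v j ∈ Φ.face i with hJ
    have hne : J.Nonempty := by
      by_contra hcon
      rw [Finset.not_nonempty_iff_eq_empty] at hcon
      have h3 := (Φ.isFace i).1
      rw [hF i, ← hJ, hcon] at h3
      simp at h3
    have hdim := Φ.dim i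
    rw [hF i, ← hJ] at hdim
    have hcard : J.card = (J.card - 1) + 1 := by
      have := Finset.card_pos.2 hne
      omega
    have h4 : Module.finrank ℝ (vectorSpan ℝ (v '' (J : Set (Fin (d + 1))))) = J.card - 1 := by
      have := hv.finrank_vectorSpan_image_finset (s := J) (n := J.card - 1) hcard
      rw [Finset.coe_image] at this
      exact this
    have h5 : vectorSpan ℝ (convexHull ℝ (v '' (J : Set (Fin (d + 1))))) =
        vectorSpan ℝ (v '' (J : Set (Fin (d + 1)))) := by
      rw [← direction_affineSpan, ← direction_affineSpan, affineSpan_convexHull]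
    rw [h5, h4] at hdim
    change J.card = (i : ℕ) + 1
    omega

/-- (FTS) -/
theorem fts (hperm : S_PERM) : S_FTS := by
  rintro d P ⟨v, s, hs, hd, hP⟩ Φ Ψ
  have hv := aff v s hs hd
  obtain ⟨I, hI1, hI2, hI3⟩ := idx v hv hP Φ
  obtain ⟨J, hJ1, hJ2, hJ3⟩ := idx v hv hP Ψ
  obtain ⟨τ, hτ⟩ := hperm (d + 1) d I J hI1 hJ1 hI2 hJ2
  obtain ⟨g, hg⟩ := perm v s hd τ
  refine ⟨g, ?_, fun i => ?_⟩
  · rw [hP, img_hull, ← range_comp]
    have : g ∘ v = v ∘ τ := funext hg
    rw [this, τ.surjective.range_comp]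
  · rw [hI3, hJ3, img_hull, ← image_comp, ← hτ i, Finset.coe_image, ← image_comp]
    have : g ∘ v = v ∘ τ := funext hg
    rw [this]

end Pool.Agent.T9h75.NK
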